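import Pool.Agent.Helper56.Un.E8Stmts

/-!
# Module E_T2: the cusps of type 1, second hinge
-/

set_option autoImplicit false

namespace Pool.Agent.Helper19.Un

open Finset

/-- the pair of inequalities needed for one lattice point -/
def et2Good (H d g : ℝ) : Prop :=
  0 ≤ g ∧ (∀ W : ℝ, (3 / 2 * d + H) ^ 2 ≤ W → 12 ≤ W → 14 / 25 - W / (12 * H) ≤ g) ∧
    (∀ W : ℝ, 2 * (3 / 2 * d + H) ^ 2 + 6 ≤ W → 28 / 25 - W / (12 * H) ≤ g)

theorem et2_good_of {H d g : ℝ} (hH : 0 < H) (h0 : 0 ≤ g)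
    (h1 : ∀ W : ℝ, (3 / 2 * d + H) ^ 2 ≤ W → 12 ≤ W → 12 * H * (14 / 25 - g) ≤ W)
    (h2 : 12 * H * (28 / 25 - g) ≤ 2 * (3 / 2 * d + H) ^ 2 + 6) : et2Good H d g := by
  refine ⟨h0, ?_, ?_⟩
  · intro W hW hW2
    have := h1 W hW hW2
    have h3 : 14 / 25 - g ≤ W / (12 * H) := by
      rw [le_div_iff₀ (by positivity)]
      linarith
    linarith
  · intro W hW
    have h3 : 28 / 25 - g ≤ W / (12 * H) := by
      rw [le_div_iff₀ (by positivity)]
      linarith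
    linarith

theorem et2_a {H d : ℝ} (h1 : 89 / 50 ≤ H) (h2 : H < 19 / 10)
    (hx : 3 ≤ 3 / 2 * d + H) :
    et2Good H d (1 / 20 * max 0 (1 - d) + 131 / 2000 * max 0 (39 / 25 - d)) := by
  have m1 := le_max_left 0 (1 - d)
  have m2 := le_max_right 0 (1 - d)
  have m3 := le_max_left 0 (39 / 25 - d)
  have m4 := le_max_right 0 (39 / 25 - d)
  apply et2_good_of (by linarith) (by positivity)
  · intro W hW hW2
    rcases le_or_gt d (39 / 25) with h | h
    · have key : 12 * H * (14 / 25 - 131 / 2000 * (39 / 25 - d)) ≤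
          (1437 / 10000) * (3 / 2 * d + H) ^ 2 + (1 - 1437 / 10000) * 12 := by
        obtain ⟨x, hxd⟩ : ∃ x, x = 3 / 2 * d + H := ⟨_, rfl⟩
        have hd' : d = (x - H) / (3 / 2) := by rw [hxd]; ring
        rw [← hxd, hd']
        rw [← hxd] at hx
        nlinarith [mul_nonneg (sub_nonneg.2 h2.le)
          (show (0 : ℝ) ≤ 524 / 1000 * x + 549384 / 100000 - 524 / 1000 * (H + 19 / 10) by
            linarith), sq_nonneg (x - 3464 / 1000)]
      nlinarith
    · have hq : (3 / 2 * (39 / 25) + 89 / 50) ^ 2 ≤ (3 / 2 * d + H) ^ 2 := by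
        apply pow_le_pow_left₀ (by norm_num)
        linarith
      nlinarith
  · rcases le_or_gt d 1 with h | h
    · have key : 12 * H * (28 / 25 - (1 / 20 * (1 - d) + 131 / 2000 * (39 / 25 - d))) ≤
          2 * (3 / 2 * d + H) ^ 2 + 6 := by
        obtain ⟨x, hxd⟩ : ∃ x, x = 3 / 2 * d + H := ⟨_, rfl⟩
        have hd' : d = (x - H) / (3 / 2) := by rw [hxd]; ring
        rw [← hxd, hd']
        rw [← hxd] at hx
        nlinarith [mul_nonneg (sub_nonneg.2 h2.le) (sub_nonneg.2 hx),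
          mul_nonneg (sub_nonneg.2 h2.le) (sub_nonneg.2 h1), sq_nonneg (x - 3)]
      nlinarith
    · have hq : (3 / 2 * 1 + 89 / 50) ^ 2 ≤ (3 / 2 * d + H) ^ 2 := by
        apply pow_le_pow_left₀ (by norm_num)
        linarith
      nlinarith

theorem et2_b {H d : ℝ} (h1 : 19 / 10 ≤ H) (h2 : H < 2)
    (hx : 3 ≤ 3 / 2 * d + H) : et2Good H d (19 / 100 * max 0 (13 / 10 - d)) := by
  have m3 := le_max_left 0 (13 / 10 - d)
  have m4 := le_max_right 0 (13 / 10 - d)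
  apply et2_good_of (by linarith) (by positivity)
  · intro W hW hW2
    rcases le_or_gt d (13 / 10) with h | h
    · have key : 12 * H * (14 / 25 - 19 / 100 * (13 / 10 - d)) ≤
          (4388 / 10000) * (3 / 2 * d + H) ^ 2 + (1 - 4388 / 10000) * 12 := by
        obtain ⟨x, hxd⟩ : ∃ x, x = 3 / 2 * d + H := ⟨_, rfl⟩
        have hd' : d = (x - H) / (3 / 2) := by rw [hxd]; ring
        rw [← hxd, hd']
        rw [← hxd] at hx
        nlinarith [mul_nonneg (sub_nonneg.2 h2.le)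
          (show (0 : ℝ) ≤ 152 / 100 * x + 3756 / 1000 - 152 / 100 * (H + 2) by
            linarith), sq_nonneg (x - 3464 / 1000)]
      nlinarith
    · have hq : (3 / 2 * (13 / 10) + 19 / 10) ^ 2 ≤ (3 / 2 * d + H) ^ 2 := by
        apply pow_le_pow_left₀ (by norm_num)
        linarith
      nlinarith
  · rcases le_or_gt d (13 / 10) with h | h
    · have key : 12 * H * (28 / 25 - 19 / 100 * (13 / 10 - d)) ≤
          2 * (3 / 2 * d + H) ^ 2 + 6 := by
        obtain ⟨x, hxd⟩ : ∃ x, x = 3 / 2 * d + H := ⟨_, rfl⟩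
        have hd' : d = (x - H) / (3 / 2) := by rw [hxd]; ring
        rw [← hxd, hd']
        rw [← hxd] at hx
        nlinarith [mul_nonneg (sub_nonneg.2 h2.le) (sub_nonneg.2 hx),
          mul_nonneg (sub_nonneg.2 h2.le) (sub_nonneg.2 h1), sq_nonneg (x - 3)]
      nlinarith
    · have hq : (3 / 2 * (13 / 10) + 19 / 10) ^ 2 ≤ (3 / 2 * d + H) ^ 2 := by
        apply pow_le_pow_left₀ (by norm_num)
        linarith
      nlinarith

theorem et2_c {H d : ℝ} (h1 : 2 ≤ H) (h2 : H < 31 / 10) (hd : 0 ≤ d)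
    (hx : 3 ≤ 3 / 2 * d + H) : et2Good H d (42 / 100 * max 0 (28 / 25 - d)) := by
  have m3 := le_max_left 0 (28 / 25 - d)
  have m4 := le_max_right 0 (28 / 25 - d)
  apply et2_good_of (by linarith) (by positivity)
  · intro W hW hW2
    rcases le_or_gt d (28 / 25) with h | h
    · have key : 12 * H * (14 / 25 - 42 / 100 * (28 / 25 - d)) ≤ (3 / 2 * d + H) ^ 2 := by
        nlinarith [sq_nonneg (3 / 2 * d + H - 168 / 100 * H),
          mul_nonneg (sub_nonneg.2 h1) (by linarith : (0 : ℝ) ≤ H)]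
      nlinarith
    · have hq : (3 / 2 * (28 / 25) + H) ^ 2 ≤ (3 / 2 * d + H) ^ 2 := by
        apply pow_le_pow_left₀ (by linarith)
        linarith
      nlinarith [sq_nonneg (H - 168 / 100)]
  · rcases le_or_gt d (28 / 25) with h | h
    · have key : 12 * H * (28 / 25 - 42 / 100 * (28 / 25 - d)) ≤
          2 * (3 / 2 * d + H) ^ 2 + 6 := by
        obtain ⟨x, hxd⟩ : ∃ x, x = 3 / 2 * d + H := ⟨_, rfl⟩
        have hd' : d = (x - H) / (3 / 2) := by rw [hxd]; ring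
        have hxH : H ≤ x := by rw [hxd]; linarith
        rw [← hxd, hd']
        rw [← hxd] at hx
        rcases le_or_gt H 3 with h3 | h3
        · nlinarith [mul_nonneg (sub_nonneg.2 hx)
            (show (0 : ℝ) ≤ x + 3 - 168 / 100 * H by linarith), sq_nonneg (H - 266 / 100)]
        · nlinarith [mul_nonneg (sub_nonneg.2 hxH)
            (show (0 : ℝ) ≤ x + H - 168 / 100 * H by linarith),
            mul_nonneg (sub_nonneg.2 h3.le) (show (0 : ℝ) ≤ H - 8976 / 10000 by linarith)]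
      nlinarith
    · have hq : (3 / 2 * (28 / 25) + H) ^ 2 ≤ (3 / 2 * d + H) ^ 2 := by
        apply pow_le_pow_left₀ (by linarith)
        linarith
      nlinarith [sq_nonneg (H - 168 / 100)]

theorem et2_d {H d : ℝ} (h1 : 31 / 10 ≤ H) (hd : 0 ≤ d) :
    et2Good H d (45 / 100 * max 0 (1 - d)) := by
  have m3 := le_max_left 0 (1 - d)
  have m4 := le_max_right 0 (1 - d)
  apply et2_good_of (by linarith) (by positivity)
  · intro W hW hW2
    rcases le_or_gt d 1 with h | h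
    · have key : 12 * H * (14 / 25 - 45 / 100 * (1 - d)) ≤ (3 / 2 * d + H) ^ 2 := by
        nlinarith [mul_nonneg (sub_nonneg.2 h)
          (show (0 : ℝ) ≤ 24 / 10 * H - 225 / 100 * (1 + d) by linarith),
          mul_nonneg (sub_nonneg.2 h1) (by linarith : (0 : ℝ) ≤ H)]
      nlinarith
    · have hq : (3 / 2 * 1 + H) ^ 2 ≤ (3 / 2 * d + H) ^ 2 := by
        apply pow_le_pow_left₀ (by linarith)
        linarith
      nlinarith [mul_nonneg (sub_nonneg.2 h1) (by linarith : (0 : ℝ) ≤ H)]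
  · rcases le_or_gt d 1 with h | h
    · have key : 12 * H * (28 / 25 - 45 / 100 * (1 - d)) ≤
          2 * (3 / 2 * d + H) ^ 2 + 6 := by
        nlinarith [mul_nonneg (sub_nonneg.2 h1) (by linarith : (0 : ℝ) ≤ H),
          mul_nonneg hd (by linarith : (0 : ℝ) ≤ H), sq_nonneg d]
      nlinarith
    · have hq : (3 / 2 * 1 + H) ^ 2 ≤ (3 / 2 * d + H) ^ 2 := by
        apply pow_le_pow_left₀ (by linarith)
        linarith
      nlinarith [mul_nonneg (sub_nonneg.2 h1) (by linarith : (0 : ℝ) ≤ H)]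

theorem et2_base (v0 : ℝ) : ∃ k0 : ℤ, 0 ≤ v0 + 2 * (k0 : ℝ) ∧ v0 + 2 * (k0 : ℝ) < 2 := by
  refine ⟨-⌊v0 / 2⌋, ?_, ?_⟩
  · have := Int.floor_le (v0 / 2)
    push_cast
    linarith
  · have := Int.lt_floor_add_one (v0 / 2)
    push_cast
    linarith

theorem et2_x {H d v0 : ℝ} (hH : 0 < H) (hd : 0 ≤ d)
    (hW : ∀ k : ℤ, 12 ≤ (3 / 2 * d + H) ^ 2 + 3 * (v0 + 2 * (k : ℝ)) ^ 2) :
    3 ≤ 3 / 2 * d + H := by
  obtain ⟨k0, h1, h2⟩ := et2_base v0
  have hx : 0 ≤ 3 / 2 * d + H := by positivity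
  have h9 : 9 ≤ (3 / 2 * d + H) ^ 2 := by
    rcases le_or_gt (v0 + 2 * (k0 : ℝ)) 1 with h | h
    · have := hW k0
      nlinarith
    · have := hW (k0 - 1)
      push_cast at this
      have e : v0 + 2 * ((k0 : ℝ) - 1) = (v0 + 2 * (k0 : ℝ)) - 2 := by ring
      rw [e] at this
      nlinarith
  nlinarith

theorem et2_zero {H d V : ℝ} (hH : 0 < H) (hd : 0 ≤ d) (hV : 4 ≤ V ^ 2) :
    max 0 (14 / 25 - u1 H d V) = 0 := by
  apply max_eq_left
  have h : 14 / 25 ≤ u1 H d V := by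
    unfold u1
    rw [le_div_iff₀ (by positivity)]
    have hq : H ^ 2 ≤ (3 / 2 * d + H) ^ 2 := by
      apply pow_le_pow_left₀ hH.le
      linarith
    nlinarith [sq_nonneg (H - 336 / 100)]
  linarith

theorem et2_inner {H d g v0 : ℝ} (hH : 0 < H) (hd : 0 ≤ d) (hg : et2Good H d g)
    (hW : ∀ k : ℤ, 12 ≤ (3 / 2 * d + H) ^ 2 + 3 * (v0 + 2 * (k : ℝ)) ^ 2) (K : Finset ℤ) :
    ∑ k ∈ K, max 0 (14 / 25 - u1 H d (v0 + 2 * (k : ℝ))) ≤ g := by
  obtain ⟨k0, h1, h2⟩ := et2_base v0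
  obtain ⟨g0, gW, gW2⟩ := hg
  have hzero : ∀ k : ℤ, k ≠ k0 → k ≠ k0 - 1 →
      max 0 (14 / 25 - u1 H d (v0 + 2 * (k : ℝ))) = 0 := by
    intro k hk hk'
    apply et2_zero hH hd
    rcases lt_or_gt_of_ne hk with h | h
    · have hk2 : k ≤ k0 - 2 := by omega
      have hk3 : (k : ℝ) ≤ k0 - 2 := by exact_mod_cast hk2
      nlinarith
    · have hk2 : k0 + 1 ≤ k := by omega
      have hk3 : (k0 : ℝ) + 1 ≤ k := by exact_mod_cast hk2
      nlinarith
  have hstep : ∑ k ∈ K, max 0 (14 / 25 - u1 H d (v0 + 2 * (k : ℝ))) ≤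
      ∑ k ∈ ({k0, k0 - 1} : Finset ℤ), max 0 (14 / 25 - u1 H d (v0 + 2 * (k : ℝ))) := by
    have e : ∑ k ∈ K ∩ {k0, k0 - 1}, max 0 (14 / 25 - u1 H d (v0 + 2 * (k : ℝ))) =
        ∑ k ∈ K, max 0 (14 / 25 - u1 H d (v0 + 2 * (k : ℝ))) := by
      apply Finset.sum_subset Finset.inter_subset_left
      intro k hk hk'
      apply hzero k
      · rintro rfl
        exact hk' (by simp [hk])
      · rintro rfl
        exact hk' (by simp [hk])
    rw [← e]
    apply Finset.sum_le_sum_of_subset_of_nonneg Finset.inter_subset_right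
    intro k _ _
    exact le_max_left _ _
  refine hstep.trans ?_
  rw [Finset.sum_pair (by omega)]
  have e1 : v0 + 2 * (((k0 - 1 : ℤ)) : ℝ) = (v0 + 2 * (k0 : ℝ)) - 2 := by push_cast; ring
  have w1 := hW k0
  have w2 := hW (k0 - 1)
  rw [e1] at w2 ⊢
  generalize v0 + 2 * (k0 : ℝ) = a at *
  have t1 := gW ((3 / 2 * d + H) ^ 2 + 3 * a ^ 2) (by nlinarith [sq_nonneg a]) w1
  have t2 := gW ((3 / 2 * d + H) ^ 2 + 3 * (a - 2) ^ 2) (by nlinarith [sq_nonneg (a - 2)]) w2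
  have t3 := gW2 (((3 / 2 * d + H) ^ 2 + 3 * a ^ 2) + ((3 / 2 * d + H) ^ 2 + 3 * (a - 2) ^ 2))
    (by nlinarith [sq_nonneg (a - 1)])
  rw [add_div] at t3
  unfold u1
  rcases le_total 0 (14 / 25 - ((3 / 2 * d + H) ^ 2 + 3 * a ^ 2) / (12 * H)) with c1 | c1
  · rw [max_eq_right c1]
    rcases le_total 0 (14 / 25 - ((3 / 2 * d + H) ^ 2 + 3 * (a - 2) ^ 2) / (12 * H)) with c2 | c2
    · rw [max_eq_right c2]
      linarith
    · rw [max_eq_left c2]
      linarith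
  · rw [max_eq_left c1]
    rcases le_total 0 (14 / 25 - ((3 / 2 * d + H) ^ 2 + 3 * (a - 2) ^ 2) / (12 * H)) with c2 | c2
    · rw [max_eq_right c2]
      linarith
    · rw [max_eq_left c2]
      linarith

theorem et2_sq8_nonneg (z : Fin 8 → ℝ) (A : Fin 8 → ℤ) : 0 ≤ sq8 z A :=
  Finset.sum_nonneg fun _ _ => sq_nonneg _

theorem et2_hyp {H : ℝ} (hH : 0 < H) {z : Fin 8 → ℝ} {v : (Fin 8 → ℤ) → ℝ}
    (hyp : ∀ A, GA A → ∀ k : ℤ, 1 / H ≤ u1 H (sq8 z A) (v A + 2 * k)) {A : Fin 8 → ℤ}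
    (hA : GA A) (k : ℤ) : 12 ≤ (3 / 2 * sq8 z A + H) ^ 2 + 3 * (v A + 2 * (k : ℝ)) ^ 2 := by
  have h := hyp A hA k
  unfold u1 at h
  rw [div_le_div_iff₀ hH (by positivity)] at h
  nlinarith

theorem et2_sum {H B : ℝ} (hH : 0 < H) {z : Fin 8 → ℝ} {v : (Fin 8 → ℤ) → ℝ} {gf : ℝ → ℝ}
    (hyp : ∀ A, GA A → ∀ k : ℤ, 1 / H ≤ u1 H (sq8 z A) (v A + 2 * k))
    (hgood : ∀ A, GA A → 3 ≤ 3 / 2 * sq8 z A + H → et2Good H (sq8 z A) (gf (sq8 z A)))
    (hS : ∀ S : Finset (Fin 8 → ℤ), (∀ A ∈ S, GA A) → ∑ A ∈ S, gf (sq8 z A) ≤ B)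
    (G : Finset ((Fin 8 → ℤ) × ℤ)) (hG : ∀ g ∈ G, GA g.1) :
    ∑ g ∈ G, max 0 (14 / 25 - u1 H (sq8 z g.1) (v g.1 + 2 * g.2)) ≤ B := by
  classical
  have h1 : ∑ g ∈ G, max 0 (14 / 25 - u1 H (sq8 z g.1) (v g.1 + 2 * g.2)) ≤
      ∑ g ∈ G.image Prod.fst ×ˢ G.image Prod.snd,
        max 0 (14 / 25 - u1 H (sq8 z g.1) (v g.1 + 2 * g.2)) := by
    apply Finset.sum_le_sum_of_subset_of_nonneg
    · intro g hg
      rw [Finset.mem_product]
      exact ⟨Finset.mem_image_of_mem _ hg, Finset.mem_image_of_mem _ hg⟩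
    · intro g _ _
      exact le_max_left _ _
  refine h1.trans ?_
  rw [Finset.sum_product]
  have hGA : ∀ A ∈ G.image Prod.fst, GA A := by
    intro A hA
    obtain ⟨g, hg, rfl⟩ := Finset.mem_image.1 hA
    exact hG g hg
  refine le_trans ?_ (hS (G.image Prod.fst) hGA)
  apply Finset.sum_le_sum
  intro A hA
  have hA' := hGA A hA
  have hd := et2_sq8_nonneg z A
  have hW := fun k => et2_hyp hH hyp hA' k
  exact et2_inner hH hd (hgood A hA' (et2_x hH hd hW)) hW _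

theorem st_ET2 (hk : ST_EKER) : ST_ET2 := by
  intro H z v hH hyp G hG
  have hH0 : 0 < H := by linarith
  unfold b2
  split_ifs with c1 c2 c3 c4
  · apply le_of_eq
    apply Finset.sum_eq_zero
    intro g hg
    apply max_eq_left
    have h1 := hyp g.1 (hG g hg) g.2
    have h2 : 14 / 25 ≤ 1 / H := by
      rw [le_div_iff₀ hH0]
      linarith
    linarith
  · apply et2_sum hH0 hyp (gf := fun d => 1 / 20 * max 0 (1 - d) + 131 / 2000 * max 0 (39 / 25 - d))
      (fun A _ hx => et2_a (not_lt.1 c1) c2 hx) _ G hG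
    intro S hS
    have k1 := hk z S hS 1 le_rfl (by norm_num)
    have k2 := hk z S hS (39 / 25) (by norm_num) (by norm_num)
    rw [Finset.sum_add_distrib, ← Finset.mul_sum, ← Finset.mul_sum]
    nlinarith
  · apply et2_sum hH0 hyp (gf := fun d => 19 / 100 * max 0 (13 / 10 - d))
      (fun A _ hx => et2_b (not_lt.1 c2) c3 hx) _ G hG
    intro S hS
    have k2 := hk z S hS (13 / 10) (by norm_num) (by norm_num)
    rw [← Finset.mul_sum]
    nlinarith
  · apply et2_sum hH0 hyp (gf := fun d => 42 / 100 * max 0 (28 / 25 - d))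
      (fun A _ hx => et2_c (not_lt.1 c3) c4 (et2_sq8_nonneg z A) hx) _ G hG
    intro S hS
    have k2 := hk z S hS (28 / 25) (by norm_num) (by norm_num)
    rw [← Finset.mul_sum]
    nlinarith
  · apply et2_sum hH0 hyp (gf := fun d => 45 / 100 * max 0 (1 - d))
      (fun A _ _ => et2_d (not_lt.1 c4) (et2_sq8_nonneg z A)) _ G hG
    intro S hS
    have k2 := hk z S hS 1 le_rfl (by norm_num)
    rw [← Finset.mul_sum]
    nlinarith

end Pool.Agent.Helper19.Un
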